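import Mathlib

set_option autoImplicit false

/-!
Let `W e_n = 2 ^ (-|n|) e_(n+1)` on a Hilbert space with orthonormal basis `e_n`, `n ∈ ℤ`. We show that
the only closed invariant subspaces of `W` are `0`, the whole space and the closed linear spans of
`{e_n | n ≥ k}`.

Let `f` lie in the invariant subspace `M` and let `g` be orthogonal to `M`. Put `t n = n (n - 1) / 2`
for `n ≥ 0` and `t n = - n (n - 1) / 2` for `n ≤ 0`, so that `t (n + 1) = t n + |n|`, and put
`a n = ⟪e n, f⟫ 2 ^ t n` and `b n = ⟪g, e (1 - n)⟫ 2 ^ t n`. That `g` is orthogonal to all `W ^ k f`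
says that the convolution `a * b` vanishes at all indices `≤ 1`. The sequences `a` and `b` are
`O (2 ^ t n)`: they may grow like `2 ^ (n ^ 2 / 2)` to the right and decay like `2 ^ (- n ^ 2 / 2)` to
the left.

The main step shows that `a` and `b` cannot both have nonzero entries far to the left. Let `A w` and
`B w` be the entire functions `∑ a (-m) w ^ m` and `∑ b (-m) w ^ m` (`m ≥ 0`). Vanishing of the
convolution at `-k` expresses the coefficient of `w ^ k` in `A w * B w` through products of an entry of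
one sequence with positive index and an entry of the other with index `< -k`. On the circle
`|w| = r = 2 ^ L` this bounds the coefficients of the product `A B` by a fixed power of `r` times the
sum of the maximal terms of `A` and `B`. On the other hand, up to negligible terms, `A` and `B` are
polynomials of degree `< 4 L`, so multiplicativity of the Mahler measure (the lemma of Gelfond) bounds
the coefficients of the product from below by a fixed negative power of `r` times the product of the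
maximal terms. This is impossible for large `r`, if both maximal terms grow faster than a large fixed
power of `r`.

So one of the two sequences, say `a`, vanishes far to the left. Then a contraction argument shows that
`b` vanishes at all indices up to `1` minus the first index of the support of `a`. This gives that the
support of `f` lies to the right of the support of `g`, which implies the theorem.
-/

namespace Pool.Agent.Results.MP_1e8505_an.ObviousChain

open Polynomial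

theorem gelfond (D : ℕ) (p q : ℂ[X]) (hp : p.natDegree < D) (hq : q.natDegree < D) (R : ℝ)
    (hR : ∀ k, ‖(p * q).coeff k‖ ≤ R) (i j : ℕ) :
    ‖p.coeff i‖ * ‖q.coeff j‖ ≤ 4 ^ D * (2 * D * R) := by
  have hR0 : 0 ≤ R := (norm_nonneg _).trans (hR 0)
  have hc : ∀ (r : ℂ[X]), r.natDegree < D → ∀ n : ℕ, ‖r.coeff n‖ ≤ 2 ^ D * r.mahlerMeasure := by
    intro r hr n
    refine (norm_coeff_le_choose_mul_mahlerMeasure n r).trans ?_
    refine mul_le_mul_of_nonneg_right ?_ (mahlerMeasure_nonneg r)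
    have h1 : r.natDegree.choose n ≤ 2 ^ D :=
      (Nat.choose_le_two_pow _ _).trans (Nat.pow_le_pow_right (by norm_num) hr.le)
    exact_mod_cast h1
  have h1 := hc p hp i
  have h2 := hc q hq j
  have h3 : p.mahlerMeasure * q.mahlerMeasure ≤ 2 * D * R := by
    rw [← mahlerMeasure_mul]
    refine (mahlerMeasure_le_sum_norm_coeff _).trans ?_
    rw [Polynomial.sum_def]
    refine (Finset.sum_le_card_nsmul _ _ R (fun k _ => hR k)).trans ?_
    rw [nsmul_eq_mul]
    refine mul_le_mul_of_nonneg_right ?_ hR0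
    have h4 : (p * q).support.card ≤ 2 * D := by
      refine (card_supp_le_succ_natDegree _).trans ?_
      have := natDegree_mul_le (p := p) (q := q)
      omega
    exact_mod_cast h4
  calc ‖p.coeff i‖ * ‖q.coeff j‖ ≤ (2 ^ D * p.mahlerMeasure) * (2 ^ D * q.mahlerMeasure) :=
        mul_le_mul h1 h2 (norm_nonneg _) (by positivity [mahlerMeasure_nonneg p])
    _ = 4 ^ D * (p.mahlerMeasure * q.mahlerMeasure) := by
        rw [show (4 : ℝ) ^ D = 2 ^ D * 2 ^ D by rw [← mul_pow]; norm_num]; ring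
    _ ≤ 4 ^ D * (2 * D * R) := mul_le_mul_of_nonneg_left h3 (by positivity)

/-- The integer `n (n - 1) / 2`, with the sign of `n`. It satisfies `t (n + 1) = t n + |n|`. -/
def t (n : ℤ) : ℤ := if 0 ≤ n then n * (n - 1) / 2 else -(n * (n - 1) / 2)

theorem two_mul_half (n : ℤ) : 2 * (n * (n - 1) / 2) = n * (n - 1) :=
  Int.mul_ediv_cancel' (even_iff_two_dvd.1 (Int.even_mul_pred_self n))

theorem t_nonneg {n : ℤ} (hn : 0 ≤ n) : 2 * t n = n * (n - 1) := by
  rw [t, if_pos hn, two_mul_half]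

theorem t_nonpos {n : ℤ} (hn : n ≤ 0) : 2 * t n = -(n * (n - 1)) := by
  rcases eq_or_lt_of_le hn with rfl | h
  · simp [t]
  · rw [t, if_neg (by omega)]
    have := two_mul_half n
    linarith

theorem t_succ (n : ℤ) : t (n + 1) = t n + |n| := by
  rcases le_or_gt 0 n with h | h
  · have h1 := t_nonneg h
    have h2 := t_nonneg (n := n + 1) (by omega)
    rw [abs_of_nonneg h]
    have : 2 * t (n + 1) = 2 * (t n + n) := by rw [h2, mul_add, h1]; ring
    linarith
  · have h1 := t_nonpos h.le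
    have h2 := t_nonpos (n := n + 1) (by omega)
    rw [abs_of_neg h]
    have : 2 * t (n + 1) = 2 * (t n + -n) := by rw [h2, mul_add, h1]; ring
    linarith

theorem t_one_sub (n : ℤ) : t (1 - n) = - t n := by
  rcases le_or_gt n 0 with h | h
  · have h1 := t_nonpos h
    have h2 := t_nonneg (n := 1 - n) (by omega)
    have : 2 * t (1 - n) = 2 * (- t n) := by rw [h2]; linear_combination h1
    linarith
  · have h1 := t_nonneg h.le
    have h2 := t_nonpos (n := 1 - n) (by omega)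
    have : 2 * t (1 - n) = 2 * (- t n) := by rw [h2]; linear_combination h1
    linarith


theorem summable_half : Summable (fun n : ℤ => (1 / 2 : ℝ) ^ n.natAbs) := by
  apply Summable.of_nat_of_neg
  · simpa using summable_geometric_two
  · simpa using summable_geometric_two

/-- Bound for a term with positive first index. -/
theorem term_bound {a b : ℤ → ℂ} {C : ℝ} (hC : 1 ≤ C) (ha : ∀ n, ‖a n‖ ≤ C * 2 ^ (t n))
    (hb : ∀ n, ‖b n‖ ≤ C * 2 ^ (t n)) (L k n : ℕ) (hn : 1 ≤ n) {V : ℝ} (hCV : C ≤ V)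
    (hV : ∀ m : ℕ, ‖b (-(m : ℤ))‖ * 2 ^ (m * L) ≤ V) :
    ‖a (n : ℤ)‖ * ‖b (-((k + n : ℕ) : ℤ))‖ * 2 ^ (k * L) ≤
      (1 / 2 : ℝ) ^ n * (C * 2 ^ (2 * L + 1) * V) := by
  have hC0 : 0 < C := by linarith
  have hV0 : 0 < V := by linarith
  rcases le_or_gt n (2 * L + 1) with h | h
  · have h1 : ‖a (n : ℤ)‖ ≤ C * 2 ^ (n * L) := by
      refine (ha n).trans ?_
      have h2 : t (n : ℤ) ≤ ((n * L : ℕ) : ℤ) := by
        have h3 := t_nonneg (n := (n : ℤ)) (by positivity)
        push_cast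
        have h4 : (n : ℤ) ≤ 2 * L + 1 := by exact_mod_cast h
        have h5 : (0 : ℤ) ≤ n := by positivity
        nlinarith
      have h3 : (2 : ℝ) ^ (t (n : ℤ)) ≤ 2 ^ (((n * L : ℕ) : ℤ)) :=
        zpow_le_zpow_right₀ (by norm_num) h2
      rw [zpow_natCast] at h3
      exact mul_le_mul_of_nonneg_left h3 hC0.le
    have h2 := hV (k + n)
    have h3 : ‖a (n : ℤ)‖ * ‖b (-((k + n : ℕ) : ℤ))‖ * 2 ^ (k * L) ≤ C * V := by
      calc ‖a (n : ℤ)‖ * ‖b (-((k + n : ℕ) : ℤ))‖ * 2 ^ (k * L)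
          ≤ (C * 2 ^ (n * L)) * ‖b (-((k + n : ℕ) : ℤ))‖ * 2 ^ (k * L) := by gcongr
        _ = C * (‖b (-((k + n : ℕ) : ℤ))‖ * 2 ^ ((k + n) * L)) := by
            rw [add_mul, pow_add]; ring
        _ ≤ C * V := by gcongr
    refine h3.trans ?_
    have h4 : (1 : ℝ) ≤ (1 / 2 : ℝ) ^ n * 2 ^ (2 * L + 1) := by
      rw [one_div, inv_pow, inv_mul_eq_div, le_div_iff₀ (by positivity), one_mul]
      exact pow_le_pow_right₀ (by norm_num) h
    calc C * V ≤ (C * V) * ((1 / 2 : ℝ) ^ n * 2 ^ (2 * L + 1)) :=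
          le_mul_of_one_le_right (by positivity) h4
      _ = _ := by ring
  · have h1 : ‖a (n : ℤ)‖ * ‖b (-((k + n : ℕ) : ℤ))‖ * 2 ^ (k * L) ≤
        C * C * (1 / 2 : ℝ) ^ n := by
      calc ‖a (n : ℤ)‖ * ‖b (-((k + n : ℕ) : ℤ))‖ * 2 ^ (k * L)
          ≤ (C * 2 ^ (t (n : ℤ))) * (C * 2 ^ (t (-((k + n : ℕ) : ℤ)))) * 2 ^ (k * L) := by
            gcongr
            · exact ha _
            · exact hb _
        _ = C * C * 2 ^ (t (n : ℤ) + t (-((k + n : ℕ) : ℤ)) + ((k * L : ℕ) : ℤ)) := by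
            rw [zpow_add₀ (by norm_num), zpow_add₀ (by norm_num), zpow_natCast]; ring
        _ ≤ C * C * 2 ^ (-(n : ℤ)) := by
            gcongr
            · norm_num
            · have h3 := t_nonneg (n := (n : ℤ)) (by positivity)
              have h4 := t_nonpos (n := -((k + n : ℕ) : ℤ)) (by
                have : (0 : ℤ) ≤ ((k + n : ℕ) : ℤ) := by positivity
                linarith)
              push_cast at *
              have h5 : (2 * L + 1 : ℤ) < n := by exact_mod_cast h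
              have h6 : (0 : ℤ) ≤ k := by positivity
              nlinarith
        _ = C * C * (1 / 2 : ℝ) ^ n := by
            rw [zpow_neg, zpow_natCast, one_div, inv_pow]
    refine h1.trans ?_
    have h2 : (1 : ℝ) ≤ 2 ^ (2 * L + 1) := one_le_pow₀ (by norm_num)
    calc C * C * (1 / 2 : ℝ) ^ n ≤ (1 / 2 : ℝ) ^ n * (C * V) := by
          rw [mul_comm]; gcongr
      _ ≤ (1 / 2 : ℝ) ^ n * (C * 2 ^ (2 * L + 1) * V) := by
          gcongr
          exact le_mul_of_one_le_right hC0.le h2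

/-- The coefficients of the product of the two principal parts. -/
theorem coeff_bound {a b : ℤ → ℂ} {C : ℝ} (hC : 1 ≤ C) (ha : ∀ n, ‖a n‖ ≤ C * 2 ^ (t n))
    (hb : ∀ n, ‖b n‖ ≤ C * 2 ^ (t n)) (L k : ℕ) {U V : ℝ} (hCU : C ≤ U) (hCV : C ≤ V)
    (hU : ∀ m : ℕ, ‖a (-(m : ℤ))‖ * 2 ^ (m * L) ≤ U)
    (hV : ∀ m : ℕ, ‖b (-(m : ℤ))‖ * 2 ^ (m * L) ≤ V)
    (hE : HasSum (fun n : ℤ => a n * b (-(k : ℤ) - n)) 0) :
    ‖∑ i ∈ Finset.range (k + 1), a (-(i : ℤ)) * b (-((k - i : ℕ) : ℤ))‖ * 2 ^ (k * L) ≤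
      (∑' n : ℤ, (1 / 2 : ℝ) ^ n.natAbs) * (2 ^ k * (C * 2 ^ (2 * L + 1) * (U + V))) := by
  classical
  have hC0 : 0 < C := by linarith
  set F : ℤ → ℂ := fun n : ℤ => a n * b (-(k : ℤ) - n) with hF
  set s : Finset ℤ := (Finset.range (k + 1)).image (fun i : ℕ => -(i : ℤ)) with hs
  have hsum : ∑ i ∈ Finset.range (k + 1), a (-(i : ℤ)) * b (-((k - i : ℕ) : ℤ)) =
      ∑ n ∈ s, F n := by
    rw [hs, Finset.sum_image]
    · apply Finset.sum_congr rfl
      intro i hi
      rw [Finset.mem_range] at hi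
      rw [hF]
      simp only
      congr 2
      rw [Nat.cast_sub (by omega)]
      ring
    · intro i _ j _ hij
      simpa using hij
  have hmem : ∀ n : ℤ, n ∉ s → (1 ≤ n ∨ n ≤ -(k : ℤ) - 1) := by
    intro n hn
    by_contra hcon
    push Not at hcon
    apply hn
    rw [hs, Finset.mem_image]
    exact ⟨n.natAbs, by rw [Finset.mem_range]; omega, by omega⟩
  have h1 : HasSum (fun n : ℤ => if n ∈ s then F n else 0) (∑ n ∈ s, F n) := by
    have := hasSum_sum_of_ne_finset_zero (f := fun n : ℤ => if n ∈ s then F n else 0) (s := s)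
      (L := SummationFilter.unconditional ℤ) (fun n hn => by simp [hn])
    rwa [Finset.sum_congr rfl (fun n hn => if_pos hn)] at this
  have h2 := h1.sub hE
  rw [sub_zero] at h2
  have hmaj : ∀ n : ℤ, ‖(if n ∈ s then F n else 0) - F n‖ ≤
      (1 / 2 : ℝ) ^ n.natAbs * (2 ^ k * (C * 2 ^ (2 * L + 1) * (U + V)) / 2 ^ (k * L)) := by
    intro n
    by_cases hn : n ∈ s
    · rw [if_pos hn, sub_self, norm_zero]
      have : 0 < U := by linarith
      have : 0 < V := by linarith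
      positivity
    · rw [if_neg hn, zero_sub, norm_neg, hF]
      simp only
      rw [norm_mul, mul_div_assoc', le_div_iff₀ (by positivity)]
      have hU0 : 0 < U := by linarith
      have hV0 : 0 < V := by linarith
      have hk1 : (1 : ℝ) ≤ 2 ^ k := one_le_pow₀ (by norm_num)
      rcases hmem n hn with h | h
      · obtain ⟨m, rfl⟩ := Int.eq_ofNat_of_zero_le (by omega : 0 ≤ n)
        have h3 := term_bound hC ha hb L k m (by omega) hCV hV
        have h4 : (-(k : ℤ) - (m : ℤ)) = -((k + m : ℕ) : ℤ) := by push_cast; ring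
        rw [h4, Int.natAbs_natCast]
        refine h3.trans ?_
        refine mul_le_mul_of_nonneg_left ?_ (by positivity)
        calc C * 2 ^ (2 * L + 1) * V ≤ C * 2 ^ (2 * L + 1) * (U + V) := by gcongr; linarith
          _ ≤ 2 ^ k * (C * 2 ^ (2 * L + 1) * (U + V)) := le_mul_of_one_le_left (by positivity) hk1
      · obtain ⟨m, hm⟩ := Int.eq_ofNat_of_zero_le (by omega : 0 ≤ -(k : ℤ) - n)
        have hn' : n = -((k + m : ℕ) : ℤ) := by push_cast; omega
        have h3 := term_bound hC hb ha L k m (by omega) hCU hU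
        have h4 : -(k : ℤ) - n = (m : ℤ) := by rw [hm]
        rw [h4, hn']
        have h5 : (-((k + m : ℕ) : ℤ)).natAbs = k + m := by
          rw [Int.natAbs_neg, Int.natAbs_natCast]
        rw [h5]
        rw [mul_comm ‖a (-((k + m : ℕ) : ℤ))‖]
        refine h3.trans ?_
        have h6 : (1 / 2 : ℝ) ^ (k + m) * (2 ^ k * (C * 2 ^ (2 * L + 1) * (U + V))) =
            (1 / 2 : ℝ) ^ m * (C * 2 ^ (2 * L + 1) * (U + V)) := by
          rw [pow_add, one_div, inv_pow, inv_pow]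
          field_simp
        rw [h6]
        gcongr
        linarith
  have h3 := HasSum.norm_le_of_bounded h2 (summable_half.hasSum.mul_right
    (2 ^ k * (C * 2 ^ (2 * L + 1) * (U + V)) / 2 ^ (k * L))) hmaj
  rw [hsum]
  rw [mul_div_assoc', le_div_iff₀ (by positivity)] at h3
  exact h3


/-- The scaled and truncated principal part. -/
noncomputable def trunc (a : ℤ → ℂ) (L : ℕ) : ℂ[X] :=
  ∑ m ∈ Finset.range (4 * L), Polynomial.C (a (-(m : ℤ)) * 2 ^ (m * L)) * X ^ m

theorem coeff_trunc (a : ℤ → ℂ) (L i : ℕ) :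
    (trunc a L).coeff i = if i < 4 * L then a (-(i : ℤ)) * 2 ^ (i * L) else 0 := by
  rw [trunc, finsetSum_coeff]
  simp only [coeff_C_mul, coeff_X_pow, mul_ite, mul_one, mul_zero, Finset.sum_ite_eq,
    Finset.mem_range]

theorem natDegree_trunc (a : ℤ → ℂ) {L : ℕ} (hL : 0 < L) : (trunc a L).natDegree < 4 * L := by
  have h : (trunc a L).natDegree ≤ 4 * L - 1 := by
    rw [Polynomial.natDegree_le_iff_coeff_eq_zero]
    intro N hN
    rw [coeff_trunc, if_neg (by omega)]
  omega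

theorem norm_coeff_trunc {a : ℤ → ℂ} {C : ℝ} (hC : 1 ≤ C) (ha : ∀ n, ‖a n‖ ≤ C * 2 ^ (t n))
    (L i : ℕ) : ‖(trunc a L).coeff i‖ ≤ C * 2 ^ (t (-(i : ℤ)) + ((i * L : ℕ) : ℤ)) := by
  have hC0 : 0 < C := by linarith
  rw [coeff_trunc]
  split_ifs
  · rw [norm_mul, zpow_add₀ (by norm_num), zpow_natCast, ← mul_assoc, norm_pow, Complex.norm_ofNat]
    gcongr
    exact ha _
  · rw [norm_zero]; positivity

theorem coeff_mul_bound {a b : ℤ → ℂ} {C : ℝ} (hC : 1 ≤ C) (ha : ∀ n, ‖a n‖ ≤ C * 2 ^ (t n))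
    (hb : ∀ n, ‖b n‖ ≤ C * 2 ^ (t n)) (L : ℕ) {U V : ℝ} (hCU : C ≤ U) (hCV : C ≤ V)
    (hU : ∀ m : ℕ, ‖a (-(m : ℤ))‖ * 2 ^ (m * L) ≤ U)
    (hV : ∀ m : ℕ, ‖b (-(m : ℤ))‖ * 2 ^ (m * L) ≤ V)
    (hE : ∀ k : ℕ, HasSum (fun n : ℤ => a n * b (-(k : ℤ) - n)) 0) (k : ℕ) :
    ‖(trunc a L * trunc b L).coeff k‖ ≤
      (∑' n : ℤ, (1 / 2 : ℝ) ^ n.natAbs) * (2 ^ (4 * L) * (C * 2 ^ (2 * L + 1) * (U + V))) +
        8 * L * C ^ 2 := by
  have hC0 : 0 < C := by linarith
  have hU0 : 0 < U := by linarith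
  have hV0 : 0 < V := by linarith
  have hS0 : 0 ≤ ∑' n : ℤ, (1 / 2 : ℝ) ^ n.natAbs := tsum_nonneg (fun _ => by positivity)
  rw [coeff_mul, Finset.Nat.sum_antidiagonal_eq_sum_range_succ_mk]
  simp only [Nat.succ_eq_add_one]
  rcases lt_or_ge k (4 * L) with h | h
  · have h1 : ∑ i ∈ Finset.range (k + 1), (trunc a L).coeff i * (trunc b L).coeff (k - i) =
        (∑ i ∈ Finset.range (k + 1), a (-(i : ℤ)) * b (-((k - i : ℕ) : ℤ))) * 2 ^ (k * L) := by
      rw [Finset.sum_mul]
      apply Finset.sum_congr rfl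
      intro i hi
      rw [Finset.mem_range] at hi
      rw [coeff_trunc, coeff_trunc, if_pos (by omega), if_pos (by omega)]
      have h2 : (2 : ℂ) ^ (k * L) = 2 ^ (i * L) * 2 ^ ((k - i) * L) := by
        rw [← pow_add, ← add_mul]
        congr 2
        omega
      rw [h2]
      ring
    rw [h1, norm_mul, norm_pow, Complex.norm_ofNat]
    have h2 := coeff_bound hC ha hb L k hCU hCV hU hV (hE k)
    refine h2.trans ?_
    have h3 : (2 : ℝ) ^ k ≤ 2 ^ (4 * L) := pow_le_pow_right₀ (by norm_num) h.le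
    have h4 : (∑' n : ℤ, (1 / 2 : ℝ) ^ n.natAbs) * (2 ^ k * (C * 2 ^ (2 * L + 1) * (U + V))) ≤
        (∑' n : ℤ, (1 / 2 : ℝ) ^ n.natAbs) * (2 ^ (4 * L) * (C * 2 ^ (2 * L + 1) * (U + V))) := by
      gcongr
    have h5 : (0 : ℝ) ≤ 8 * L * C ^ 2 := by positivity
    linarith
  · have h1 : ‖∑ i ∈ Finset.range (k + 1), (trunc a L).coeff i * (trunc b L).coeff (k - i)‖ ≤
        8 * L * C ^ 2 := by
      rcases lt_or_ge k (8 * L) with h' | h'
      · refine (norm_sum_le_of_le _ (f := fun i => (trunc a L).coeff i * (trunc b L).coeff (k - i))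
          (n := fun _ => C ^ 2) ?_).trans ?_
        · intro i hi
          rw [Finset.mem_range] at hi
          rw [norm_mul]
          calc ‖(trunc a L).coeff i‖ * ‖(trunc b L).coeff (k - i)‖
              ≤ (C * 2 ^ (t (-(i : ℤ)) + ((i * L : ℕ) : ℤ))) *
                (C * 2 ^ (t (-((k - i : ℕ) : ℤ)) + (((k - i) * L : ℕ) : ℤ))) :=
                mul_le_mul (norm_coeff_trunc hC ha L i) (norm_coeff_trunc hC hb L (k - i))
                  (norm_nonneg _) (by positivity)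
            _ = C ^ 2 * 2 ^ ((t (-(i : ℤ)) + ((i * L : ℕ) : ℤ)) +
                  (t (-((k - i : ℕ) : ℤ)) + (((k - i) * L : ℕ) : ℤ))) := by
                rw [zpow_add₀ (by norm_num) (t (-(i : ℤ)) + ((i * L : ℕ) : ℤ))]
                ring
            _ ≤ C ^ 2 * 1 := by
                gcongr
                apply zpow_le_one_of_nonpos₀ (by norm_num)
                obtain ⟨j, hj⟩ : ∃ j : ℕ, k = i + j := ⟨k - i, by omega⟩
                have hji : k - i = j := by omega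
                rw [hji]
                have h3 := t_nonpos (n := -(i : ℤ)) (by
                  have : (0 : ℤ) ≤ (i : ℤ) := by positivity
                  linarith)
                have h4 := t_nonpos (n := -(j : ℤ)) (by
                  have : (0 : ℤ) ≤ (j : ℤ) := by positivity
                  linarith)
                push_cast
                have h5 : (4 * L : ℤ) ≤ i + j := by
                  have : 4 * L ≤ i + j := by omega
                  exact_mod_cast this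
                have h6 : (0 : ℤ) ≤ (i : ℤ) := by positivity
                have h7 : (0 : ℤ) ≤ (j : ℤ) := by positivity
                nlinarith [sq_nonneg ((i : ℤ) - j)]
            _ = C ^ 2 := mul_one _
        · rw [Finset.sum_const, Finset.card_range, nsmul_eq_mul]
          have h8 : ((k + 1 : ℕ) : ℝ) ≤ 8 * L := by exact_mod_cast h'
          gcongr
      · have h2 : ∑ i ∈ Finset.range (k + 1), (trunc a L).coeff i * (trunc b L).coeff (k - i) =
            0 := by
          apply Finset.sum_eq_zero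
          intro i hi
          rw [Finset.mem_range] at hi
          rw [coeff_trunc, coeff_trunc]
          by_cases hi4 : i < 4 * L
          · rw [if_neg (by omega : ¬ (k - i < 4 * L)), mul_zero]
          · rw [if_neg hi4, zero_mul]
        rw [h2, norm_zero]
        positivity
    refine h1.trans ?_
    have : 0 ≤ (∑' n : ℤ, (1 / 2 : ℝ) ^ n.natAbs) *
        (2 ^ (4 * L) * (C * 2 ^ (2 * L + 1) * (U + V))) := by positivity
    linarith

theorem tail_bound {a : ℤ → ℂ} {C : ℝ} (hC : 1 ≤ C) (ha : ∀ n, ‖a n‖ ≤ C * 2 ^ (t n))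
    (L m : ℕ) (hm : 4 * L ≤ m) : ‖a (-(m : ℤ))‖ * 2 ^ (m * L) ≤ C := by
  have hC0 : 0 < C := by linarith
  calc ‖a (-(m : ℤ))‖ * 2 ^ (m * L) ≤ (C * 2 ^ (t (-(m : ℤ)))) * 2 ^ (m * L) := by
        gcongr; exact ha _
    _ = C * 2 ^ (t (-(m : ℤ)) + ((m * L : ℕ) : ℤ)) := by
        rw [zpow_add₀ (by norm_num), zpow_natCast]; ring
    _ ≤ C * 1 := by
        gcongr
        apply zpow_le_one_of_nonpos₀ (by norm_num)
        have h6 : (0 : ℤ) ≤ (m : ℤ) := by positivity
        have h3 := t_nonpos (n := -(m : ℤ)) (by linarith)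
        push_cast
        have h5 : (4 * L : ℤ) ≤ m := by exact_mod_cast hm
        nlinarith
    _ = C := mul_one _

/-- The largest of the numbers `‖a (-m)‖ 2 ^ (m L)`, `m < 4 L`. -/
theorem exists_max {a : ℤ → ℂ} {C : ℝ} (hC : 1 ≤ C) (ha : ∀ n, ‖a n‖ ≤ C * 2 ^ (t n))
    {L : ℕ} (hL : 0 < L) : ∃ i < 4 * L, (∀ m : ℕ, ‖a (-(m : ℤ))‖ * 2 ^ (m * L) ≤
      ‖a (-(i : ℤ))‖ * 2 ^ (i * L) + C) ∧ (∀ m < 4 * L, ‖a (-(m : ℤ))‖ * 2 ^ (m * L) ≤
      ‖a (-(i : ℤ))‖ * 2 ^ (i * L)) := by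
  obtain ⟨i, hi, hmax⟩ := Finset.exists_max_image (Finset.range (4 * L))
    (fun m : ℕ => ‖a (-(m : ℤ))‖ * 2 ^ (m * L)) ⟨0, by rw [Finset.mem_range]; omega⟩
  rw [Finset.mem_range] at hi
  refine ⟨i, hi, fun m => ?_, fun m hm => hmax m (Finset.mem_range.2 hm)⟩
  rcases lt_or_ge m (4 * L) with h | h
  · have := hmax m (Finset.mem_range.2 h)
    linarith
  · have := tail_bound hC ha L m h
    have h2 : 0 ≤ ‖a (-(i : ℤ))‖ * 2 ^ (i * L) := by positivity
    linarith

/-- The two principal parts cannot both have terms of large degree. -/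
theorem principal_parts {a b : ℤ → ℂ} {C : ℝ} (hC : 1 ≤ C) (ha : ∀ n, ‖a n‖ ≤ C * 2 ^ (t n))
    (hb : ∀ n, ‖b n‖ ≤ C * 2 ^ (t n))
    (hE : ∀ k : ℕ, HasSum (fun n : ℤ => a n * b (-(k : ℤ) - n)) 0)
    {m₁ m₂ : ℕ} (h₁ : 16 ≤ m₁) (h₂ : 16 ≤ m₂) (ha₁ : a (-(m₁ : ℤ)) ≠ 0) :
    b (-(m₂ : ℤ)) = 0 := by
  by_contra hb₂
  have hC0 : 0 < C := by linarith
  set S : ℝ := ∑' n : ℤ, (1 / 2 : ℝ) ^ n.natAbs with hS
  have hS0 : 0 ≤ S := tsum_nonneg (fun _ => by positivity)
  set K : ℝ := 32 * S * C ^ 2 + 64 * C ^ 2 with hK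
  have hK1 : 1 ≤ K := by
    have h1 : 0 ≤ 32 * S * C ^ 2 := by positivity
    nlinarith
  have hpa : 0 < ‖a (-(m₁ : ℤ))‖ := norm_pos_iff.2 ha₁
  have hpb : 0 < ‖b (-(m₂ : ℤ))‖ := norm_pos_iff.2 hb₂
  -- choose `L`
  obtain ⟨L₁, hL₁⟩ := exists_nat_gt (3 * K / ‖a (-(m₁ : ℤ))‖)
  obtain ⟨L₂, hL₂⟩ := exists_nat_gt (3 * K / ‖b (-(m₂ : ℤ))‖)
  set L : ℕ := L₁ + L₂ + m₁ + m₂ with hLdef
  have hL : 0 < L := by omega
  set x : ℝ := 2 ^ L with hx
  have hLx : (L : ℝ) ≤ x := by
    rw [hx]; exact_mod_cast (Nat.lt_two_pow_self (n := L)).le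
  have hx1 : 1 ≤ x := one_le_pow₀ (by norm_num)
  have hxa : 3 * K < ‖a (-(m₁ : ℤ))‖ * x := by
    rw [div_lt_iff₀ hpa] at hL₁
    have : (L₁ : ℝ) ≤ x := le_trans (by rw [hLdef]; push_cast; linarith [show (0 : ℝ) ≤ L₂ from by positivity, show (0 : ℝ) ≤ m₁ from by positivity, show (0 : ℝ) ≤ m₂ from by positivity]) hLx
    nlinarith
  have hxb : 3 * K < ‖b (-(m₂ : ℤ))‖ * x := by
    rw [div_lt_iff₀ hpb] at hL₂
    have : (L₂ : ℝ) ≤ x := le_trans (by rw [hLdef]; push_cast; linarith [show (0 : ℝ) ≤ L₁ from by positivity, show (0 : ℝ) ≤ m₁ from by positivity, show (0 : ℝ) ≤ m₂ from by positivity]) hLx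
    nlinarith
  obtain ⟨i, hi, hi1, hi2⟩ := exists_max hC ha hL
  obtain ⟨j, hj, hj1, hj2⟩ := exists_max hC hb hL
  set u : ℝ := ‖a (-(i : ℤ))‖ * 2 ^ (i * L) with hu
  set v : ℝ := ‖b (-(j : ℤ))‖ * 2 ^ (j * L) with hv
  have hu0 : 0 ≤ u := by positivity
  have hv0 : 0 ≤ v := by positivity
  -- `u` and `v` are large
  have hularge : 3 * (K * x ^ 15) < u := by
    have h3 := hi2 m₁ (by omega)
    have h4 : ‖a (-(m₁ : ℤ))‖ * x ^ 16 ≤ ‖a (-(m₁ : ℤ))‖ * 2 ^ (m₁ * L) := by
      rw [hx, ← pow_mul]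
      refine mul_le_mul_of_nonneg_left (pow_le_pow_right₀ (by norm_num) ?_) (norm_nonneg _)
      rw [mul_comm]; exact Nat.mul_le_mul_right L h₁
    have h5 : 3 * (K * x ^ 15) < ‖a (-(m₁ : ℤ))‖ * x ^ 16 := by
      have : 0 < x ^ 15 := by positivity
      nlinarith
    linarith
  have hvlarge : 3 * (K * x ^ 15) < v := by
    have h3 := hj2 m₂ (by omega)
    have h4 : ‖b (-(m₂ : ℤ))‖ * x ^ 16 ≤ ‖b (-(m₂ : ℤ))‖ * 2 ^ (m₂ * L) := by
      rw [hx, ← pow_mul]
      refine mul_le_mul_of_nonneg_left (pow_le_pow_right₀ (by norm_num) ?_) (norm_nonneg _)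
      rw [mul_comm]; exact Nat.mul_le_mul_right L h₂
    have h5 : 3 * (K * x ^ 15) < ‖b (-(m₂ : ℤ))‖ * x ^ 16 := by
      have : 0 < x ^ 15 := by positivity
      nlinarith
    linarith
  -- the main inequality
  have hmain := gelfond (4 * L) (trunc a L) (trunc b L) (natDegree_trunc a hL)
    (natDegree_trunc b hL) _
    (coeff_mul_bound hC ha hb L (U := u + C) (V := v + C) (by linarith) (by linarith) hi1 hj1 hE)
    i j
  rw [coeff_trunc, coeff_trunc, if_pos hi, if_pos hj, norm_mul, norm_mul, norm_pow, norm_pow,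
    Complex.norm_ofNat, ← hu, ← hv, ← hS] at hmain
  have e1 : (4 : ℝ) ^ (4 * L) = x ^ 8 := by
    rw [hx, ← pow_mul, show (4 : ℝ) = 2 ^ 2 by norm_num, ← pow_mul]
    congr 1
    ring
  have e2 : (2 : ℝ) ^ (4 * L) = x ^ 4 := by
    rw [hx, ← pow_mul]; congr 1; ring
  have e3 : (2 : ℝ) ^ (2 * L + 1) = 2 * x ^ 2 := by
    rw [hx, ← pow_mul, pow_succ, mul_comm]; congr 2; ring
  rw [e1, e2, e3] at hmain
  have hbound : u * v ≤ K * x ^ 15 * (u + v + 1) := by
    refine hmain.trans ?_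
    push_cast
    have g1 : S * (x ^ 4 * (C * (2 * x ^ 2) * (u + C + (v + C)))) ≤
        S * (x ^ 4 * (C * (2 * x ^ 2) * (2 * C * (u + v + 1)))) := by
      gcongr
      nlinarith
    have g2 : 2 * (4 * (L : ℝ)) ≤ 8 * x := by linarith
    have g3 : 8 * (L : ℝ) * C ^ 2 ≤ 8 * x * C ^ 2 := by gcongr
    calc x ^ 8 * (2 * (4 * (L : ℝ)) * (S * (x ^ 4 * (C * (2 * x ^ 2) * (u + C + (v + C)))) +
            8 * L * C ^ 2))
        ≤ x ^ 8 * (8 * x * (S * (x ^ 4 * (C * (2 * x ^ 2) * (2 * C * (u + v + 1)))) +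
            8 * x * C ^ 2)) := by gcongr
      _ = 32 * S * C ^ 2 * x ^ 15 * (u + v + 1) + 64 * C ^ 2 * x ^ 10 * 1 := by ring
      _ ≤ 32 * S * C ^ 2 * x ^ 15 * (u + v + 1) + 64 * C ^ 2 * x ^ 15 * (u + v + 1) := by
          have g4 : x ^ 10 ≤ x ^ 15 := pow_le_pow_right₀ hx1 (by norm_num)
          have g5 : (1 : ℝ) ≤ u + v + 1 := by linarith
          gcongr
      _ = K * x ^ 15 * (u + v + 1) := by rw [hK]; ring
  have hY : 1 ≤ K * x ^ 15 := one_le_mul_of_one_le_of_one_le hK1 (one_le_pow₀ hx1)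
  nlinarith

theorem two_mul_t_le (n : ℤ) : 2 * t n ≤ n * (n - 1) := by
  rcases le_or_gt n 0 with h | h
  · rw [t_nonpos h]; nlinarith
  · rw [t_nonneg h.le]

theorem exponent_bound (s : ℤ) (k i : ℕ) (hks : s ≤ k) (hk : 1 ≤ k) (hi : 1 ≤ i) :
    t (k - s) + t (i - s) - t (k + i - s) ≤ s * (s + 1) - ((k - 1 : ℕ) : ℤ) - i := by
  have h1 := t_nonneg (n := (k : ℤ) - s) (by omega)
  have h2 := two_mul_t_le ((i : ℤ) - s)
  have h3 := t_nonneg (n := (k : ℤ) + i - s) (by omega)
  have h4 : ((k - 1 : ℕ) : ℤ) = k - 1 := by omega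
  have h5 : (1 : ℤ) ≤ k := by exact_mod_cast hk
  have h6 : (1 : ℤ) ≤ i := by exact_mod_cast hi
  have h7 : 0 ≤ s * (s + 1) := by
    rcases le_or_gt 0 s with h | h
    · positivity
    · nlinarith
  rw [h4]
  nlinarith [mul_nonneg (sub_nonneg.2 h5) (sub_nonneg.2 h6)]

/-- The one-sided case. -/
theorem one_sided {a b : ℤ → ℂ} {C : ℝ} (hC : 1 ≤ C) (ha : ∀ n, ‖a n‖ ≤ C * 2 ^ (t n))
    (hb : ∀ n, ‖b n‖ ≤ C * 2 ^ (t n))
    (hE : ∀ k : ℕ, HasSum (fun n : ℤ => a n * b (1 - (k : ℤ) - n)) 0)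
    {s : ℤ} (hs : a (-s) ≠ 0) (hs' : ∀ n < -s, a n = 0) (m : ℤ) (hm : m ≤ 1 + s) : b m = 0 := by
  have hC0 : 0 < C := by linarith
  have hpos : 0 < ‖a (-s)‖ := norm_pos_iff.2 hs
  -- the recursion
  have hrec : ∀ k : ℕ, HasSum (fun i : ℕ => a (((i + 1 : ℕ) : ℤ) - s) *
      b (1 - (((k : ℤ) + (i + 1 : ℕ) - s)))) (-(a (-s) * b (1 - ((k : ℤ) - s)))) := by
    intro k
    have hinj : Function.Injective (fun i : ℕ => (i : ℤ) - s) := by
      intro i j hij
      simpa using hij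
    have h1 : HasSum ((fun n : ℤ => a n * b (1 - (k : ℤ) - n)) ∘ (fun i : ℕ => (i : ℤ) - s)) 0 := by
      rw [hinj.hasSum_iff]
      · exact hE k
      · intro n hn
        have : n < -s := by
          by_contra hcon
          apply hn
          exact ⟨(n + s).toNat, by simp only; omega⟩
        rw [hs' n this, zero_mul]
    have h2 := (hasSum_nat_add_iff' 1).2 h1
    simp only [Finset.range_one, Finset.sum_singleton, Function.comp_apply, Nat.cast_zero,
      zero_sub] at h2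
    have h3 : (1 : ℤ) - k - -s = 1 - (k - s) := by ring
    rw [h3] at h2
    have h4 : (fun i : ℕ => a (((i + 1 : ℕ) : ℤ) - s) * b (1 - (((k : ℤ) + (i + 1 : ℕ) - s)))) =
        (fun n : ℕ => a (((n + 1 : ℕ) : ℤ) - s) * b (1 - (k : ℤ) - (((n + 1 : ℕ) : ℤ) - s))) := by
      funext i
      congr 2
      ring
    rw [h4]
    exact h2
  -- large `k`
  obtain ⟨K₀, hK₀⟩ := exists_nat_gt (2 * C * 2 ^ (s * (s + 1)) / ‖a (-s)‖)
  set K : ℕ := K₀ + 1 + s.natAbs with hK
  have hsmall : C * 2 ^ (s * (s + 1)) * (1 / 2) ^ K₀ ≤ ‖a (-s)‖ / 2 := by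
    rw [div_lt_iff₀ hpos] at hK₀
    have h1 : (K₀ : ℝ) ≤ 2 ^ K₀ := by exact_mod_cast (Nat.lt_two_pow_self (n := K₀)).le
    rw [one_div, inv_pow, ← div_eq_mul_inv, div_le_iff₀ (by positivity)]
    nlinarith
  have hcontr : ∀ N : ℕ, ∀ k : ℕ, K ≤ k →
      ‖b (1 - ((k : ℤ) - s))‖ * 2 ^ (t ((k : ℤ) - s)) ≤ C * (1 / 2) ^ N := by
    intro N
    induction N with
    | zero =>
      intro k _
      rw [pow_zero, mul_one]
      calc ‖b (1 - ((k : ℤ) - s))‖ * 2 ^ (t ((k : ℤ) - s))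
          ≤ (C * 2 ^ (t (1 - ((k : ℤ) - s)))) * 2 ^ (t ((k : ℤ) - s)) := by
            gcongr; exact hb _
        _ = C := by
            rw [t_one_sub, zpow_neg, mul_assoc, inv_mul_cancel₀ (by positivity), mul_one]
    | succ N ih =>
      intro k hk
      have h1 := hrec k
      have hmaj : ∀ i : ℕ, ‖a (((i + 1 : ℕ) : ℤ) - s) * b (1 - (((k : ℤ) + (i + 1 : ℕ) - s)))‖ ≤
          (1 / 2 : ℝ) / 2 ^ i * (C * 2 ^ (s * (s + 1)) * (1 / 2) ^ K₀ * (C * (1 / 2) ^ N) /
            2 ^ (t ((k : ℤ) - s))) := by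
        intro i
        have h2 := ih (k + (i + 1)) (by omega)
        have h3 := exponent_bound s k (i + 1) (by omega) (by omega) (by omega)
        rw [norm_mul, mul_div_assoc', le_div_iff₀ (by positivity)]
        have h4 : ‖b (1 - (((k : ℤ) + (i + 1 : ℕ) - s)))‖ ≤
            C * (1 / 2) ^ N * 2 ^ (-(t ((k : ℤ) + (i + 1 : ℕ) - s))) := by
          rw [zpow_neg, ← div_eq_mul_inv, le_div_iff₀ (by positivity)]
          have : (((k + (i + 1) : ℕ) : ℤ) - s) = (k : ℤ) + (i + 1 : ℕ) - s := by push_cast; ring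
          rw [this] at h2
          exact h2
        calc ‖a (((i + 1 : ℕ) : ℤ) - s)‖ * ‖b (1 - (((k : ℤ) + (i + 1 : ℕ) - s)))‖ *
              2 ^ (t ((k : ℤ) - s))
            ≤ (C * 2 ^ (t (((i + 1 : ℕ) : ℤ) - s))) *
              (C * (1 / 2) ^ N * 2 ^ (-(t ((k : ℤ) + (i + 1 : ℕ) - s)))) *
              2 ^ (t ((k : ℤ) - s)) := by
              gcongr
              exact ha _
          _ = C * (C * (1 / 2) ^ N) * 2 ^ (t ((k : ℤ) - s) + t (((i + 1 : ℕ) : ℤ) - s) -
                t ((k : ℤ) + (i + 1 : ℕ) - s)) := by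
              rw [zpow_sub₀ (by norm_num) (t ((k : ℤ) - s) + t (((i + 1 : ℕ) : ℤ) - s)),
                zpow_add₀ (by norm_num) (t ((k : ℤ) - s)), zpow_neg]
              ring
          _ ≤ C * (C * (1 / 2) ^ N) * 2 ^ (s * (s + 1) - ((K₀ : ℕ) : ℤ) - ((i + 1 : ℕ) : ℤ)) := by
              refine mul_le_mul_of_nonneg_left (zpow_le_zpow_right₀ (by norm_num) ?_)
                (by positivity)
              refine h3.trans ?_
              have : ((K₀ : ℕ) : ℤ) ≤ ((k - 1 : ℕ) : ℤ) := by omega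
              linarith
          _ = (1 / 2 : ℝ) / 2 ^ i * (C * 2 ^ (s * (s + 1)) * (1 / 2) ^ K₀ * (C * (1 / 2) ^ N)) := by
              rw [zpow_sub₀ (by norm_num), zpow_sub₀ (by norm_num), zpow_natCast, zpow_natCast,
                pow_succ, one_div, inv_pow, inv_pow]
              field_simp
      have h2 := HasSum.norm_le_of_bounded h1 ((hasSum_geometric_two' (1 : ℝ)).mul_right _) hmaj
      rw [norm_neg, norm_mul, one_mul, le_div_iff₀ (by positivity)] at h2
      have h3 : C * 2 ^ (s * (s + 1)) * (1 / 2) ^ K₀ * (C * (1 / 2) ^ N) ≤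
          ‖a (-s)‖ / 2 * (C * (1 / 2) ^ N) := by gcongr
      have h4 : ‖a (-s)‖ * (‖b (1 - ((k : ℤ) - s))‖ * 2 ^ (t ((k : ℤ) - s))) ≤
          ‖a (-s)‖ * (C * (1 / 2) ^ (N + 1)) := by
        rw [pow_succ]
        linarith
      exact le_of_mul_le_mul_left h4 hpos
  have hlarge : ∀ k : ℕ, K ≤ k → b (1 - ((k : ℤ) - s)) = 0 := by
    intro k hk
    have h1 : Filter.Tendsto (fun N : ℕ => C * (1 / 2 : ℝ) ^ N) Filter.atTop (nhds (C * 0)) :=
      (tendsto_pow_atTop_nhds_zero_of_lt_one (by norm_num) (by norm_num)).const_mul C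
    have h2 := ge_of_tendsto' h1 (fun N => hcontr N k hk)
    rw [mul_zero] at h2
    have h3 : (0 : ℝ) < 2 ^ (t ((k : ℤ) - s)) := by positivity
    have h4 : ‖b (1 - ((k : ℤ) - s))‖ ≤ 0 := by
      by_contra hcon
      push Not at hcon
      have := mul_pos hcon h3
      linarith
    exact norm_le_zero_iff.1 h4
  have hall : ∀ j k : ℕ, K ≤ k + j → b (1 - ((k : ℤ) - s)) = 0 := by
    intro j
    induction j with
    | zero => intro k hk; exact hlarge k (by omega)
    | succ j ih =>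
      intro k hk
      have h1 := hrec k
      have h2 : HasSum (fun i : ℕ => a (((i + 1 : ℕ) : ℤ) - s) *
          b (1 - (((k : ℤ) + (i + 1 : ℕ) - s)))) 0 := by
        have h3 : (fun i : ℕ => a (((i + 1 : ℕ) : ℤ) - s) *
          b (1 - (((k : ℤ) + (i + 1 : ℕ) - s)))) = fun _ => 0 := by
          funext i
          have h4 := ih (k + (i + 1)) (by omega)
          have h5 : (((k + (i + 1) : ℕ) : ℤ) - s) = (k : ℤ) + (i + 1 : ℕ) - s := by push_cast; ring
          rw [h5] at h4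
          rw [h4, mul_zero]
        rw [h3]
        exact hasSum_zero
      have h3 := h1.unique h2
      rw [neg_eq_zero, mul_eq_zero] at h3
      exact h3.resolve_left hs
  have h1 := hall K (1 + s - m).toNat (by omega)
  have h2 : (1 : ℤ) - (((1 + s - m).toNat : ℤ) - s) = m := by omega
  rwa [h2] at h1

theorem swap {a b : ℤ → ℂ} {k : ℤ} (h : HasSum (fun n : ℤ => a n * b (k - n)) 0) :
    HasSum (fun n : ℤ => b n * a (k - n)) 0 := by
  rw [← (Equiv.subLeft k).hasSum_iff] at h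
  have h1 : ((fun n : ℤ => a n * b (k - n)) ∘ (Equiv.subLeft k)) =
      fun n : ℤ => b n * a (k - n) := by
    funext n
    simp [mul_comm]
  rwa [h1] at h

/-- A Titchmarsh type theorem: if the convolution of `a` and `b` vanishes at all indices `≤ 1`, then
the supports of `a` and `b` are bounded below, by numbers whose sum is at least `2`. -/
theorem titchmarsh {a b : ℤ → ℂ} {C : ℝ} (hC : 1 ≤ C) (ha : ∀ n, ‖a n‖ ≤ C * 2 ^ (t n))
    (hb : ∀ n, ‖b n‖ ≤ C * 2 ^ (t n))
    (hE : ∀ k : ℕ, HasSum (fun n : ℤ => a n * b (1 - (k : ℤ) - n)) 0)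
    {n m : ℤ} (hn : a n ≠ 0) (hm : b m ≠ 0) : 2 ≤ n + m := by
  have hE' : ∀ k : ℕ, HasSum (fun n : ℤ => b n * a (1 - (k : ℤ) - n)) 0 := fun k => swap (hE k)
  by_cases h1 : ∃ N : ℤ, ∀ n : ℤ, a n ≠ 0 → N ≤ n
  · obtain ⟨s, hs, hs'⟩ := Int.exists_least_of_bdd h1 ⟨n, hn⟩
    by_contra hcon
    apply hm
    refine one_sided hC ha hb hE (s := -s) (by rwa [neg_neg]) ?_ m ?_
    · intro n hn
      by_contra hn'
      have := hs' n hn'
      omega
    · have := hs' n hn
      omega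
  · by_cases h2 : ∃ N : ℤ, ∀ n : ℤ, b n ≠ 0 → N ≤ n
    · obtain ⟨s, hs, hs'⟩ := Int.exists_least_of_bdd h2 ⟨m, hm⟩
      by_contra hcon
      apply hn
      refine one_sided hC hb ha hE' (s := -s) (by rwa [neg_neg]) ?_ n ?_
      · intro n hn
        by_contra hn'
        have := hs' n hn'
        omega
      · have := hs' m hm
        omega
    · exfalso
      push Not at h1 h2
      obtain ⟨p, hp, hp'⟩ := h1 (-16)
      obtain ⟨q, hq, hq'⟩ := h2 (-16)
      apply hq
      have h3 : q = -(((-q).toNat : ℕ) : ℤ) := by omega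
      have h4 : p = -(((-p).toNat : ℕ) : ℤ) := by omega
      rw [h3]
      refine principal_parts hC ha hb ?_ (m₁ := (-p).toNat) (by omega) (by omega) (by rwa [← h4])
      intro k
      have h5 := hE (k + 1)
      have h6 : (1 : ℤ) - ((k + 1 : ℕ) : ℤ) = -(k : ℤ) := by push_cast; ring
      rwa [h6] at h5

/-! ### The operator -/

section operator

variable {H : Type*} [NormedAddCommGroup H] [InnerProductSpace ℂ H] [CompleteSpace H]

theorem zpow_abs (n : ℤ) : ((2 : ℂ) ^ (-|n|)) = ((1 / 2 : ℝ) ^ n.natAbs : ℝ) := by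
  rw [zpow_neg, ← Int.natCast_natAbs, zpow_natCast]
  push_cast
  rw [one_div, inv_pow]

/-- The bounded operator with `W (e n) = 2 ^ (-|n|) • e (n + 1)` exists. -/
theorem exists_shift (e : HilbertBasis ℤ ℂ H) :
    ∃ W : H →L[ℂ] H, ∀ n : ℤ, W (e n) = ((2 : ℂ) ^ (-|n|)) • e (n + 1) := by
  classical
  set T : ℤ → (H →L[ℂ] H) := fun n =>
    (innerSL ℂ (e n)).smulRight (((2 : ℂ) ^ (-|n|)) • e (n + 1)) with hT
  have hTn : ∀ n, ‖T n‖ ≤ (1 / 2 : ℝ) ^ n.natAbs := by
    intro n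
    rw [hT]
    simp only
    rw [ContinuousLinearMap.norm_smulRight_apply, innerSL_apply_norm, norm_smul,
      e.orthonormal.1, e.orthonormal.1, zpow_abs, Complex.norm_real, Real.norm_eq_abs,
      abs_of_nonneg (by positivity)]
    simp
  have hsum : Summable T := Summable.of_norm_bounded summable_half hTn
  refine ⟨∑' n, T n, fun m => ?_⟩
  have h1 : HasSum (fun n => T n (e m)) ((∑' n, T n) (e m)) :=
    hsum.hasSum.mapL (ContinuousLinearMap.apply ℂ H (e m))
  have h2 : (fun n => T n (e m)) = fun n => if n = m then ((2 : ℂ) ^ (-|m|)) • e (m + 1) else 0 := by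
    funext n
    rw [hT]
    simp only [ContinuousLinearMap.smulRight_apply, innerSL_apply_apply]
    rw [orthonormal_iff_ite.1 e.orthonormal n m]
    split_ifs with h
    · rw [h, one_smul]
    · rw [zero_smul]
  rw [h2] at h1
  exact h1.unique (hasSum_ite_eq m _)

omit [CompleteSpace H] in
/-- The coefficients of the powers. -/
theorem hasSum_pow {e : HilbertBasis ℤ ℂ H} {W : H →L[ℂ] H}
    (hW : ∀ n : ℤ, W (e n) = ((2 : ℂ) ^ (-|n|)) • e (n + 1)) (f g : H) (k : ℕ) :
    HasSum (fun n : ℤ => inner ℂ (e n) f * ((2 : ℂ) ^ (t n - t (n + k)) * inner ℂ g (e (n + k))))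
      (inner ℂ g ((W ^ k) f)) := by
  have h1 : ∀ n : ℤ, (W ^ k) (e n) = ((2 : ℂ) ^ (t n - t (n + k))) • e (n + k) := by
    intro n
    induction k with
    | zero => simp
    | succ k ih =>
      rw [pow_succ']
      rw [mul_apply_eq_comp, ih, map_smul, hW, smul_smul, ← zpow_add₀ (by norm_num)]
      have h2 : n + ((k + 1 : ℕ) : ℤ) = n + k + 1 := by push_cast; ring
      rw [h2, t_succ (n + k)]
      congr 2
      ring
  have h2 := (e.hasSum_repr f).mapL (W ^ k)
  have h3 := h2.mapL (innerSL ℂ g)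
  have h4 : (fun n : ℤ => (innerSL ℂ g) ((W ^ k) ((e.repr f) n • e n))) =
      (fun n : ℤ => inner ℂ (e n) f *
        ((2 : ℂ) ^ (t n - t (n + k)) * inner ℂ g (e (n + k)))) := by
    funext n
    rw [map_smul, map_smul, h1, map_smul, innerSL_apply_apply, HilbertBasis.repr_apply_apply]
    simp only [smul_eq_mul]
  rw [h4] at h3
  exact h3

omit [CompleteSpace H] in
theorem pow_mem {W : H →L[ℂ] H} {M : Submodule ℂ H} (hM : ∀ x ∈ M, W x ∈ M) (k : ℕ) {f : H}
    (hf : f ∈ M) : (W ^ k) f ∈ M := by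
  induction k with
  | zero => simpa using hf
  | succ k ih => rw [pow_succ', mul_apply_eq_comp]; exact hM _ ih

omit [CompleteSpace H] in
theorem norm_coeff_le (e : HilbertBasis ℤ ℂ H) (n : ℤ) (f : H) : ‖inner ℂ (e n) f‖ ≤ ‖f‖ := by
  have := norm_inner_le_norm (𝕜 := ℂ) (e n) f
  rwa [e.orthonormal.1, one_mul] at this

omit [CompleteSpace H] in
/-- The support of a vector of an invariant subspace lies to the right of the support of a vector
orthogonal to it. -/
theorem support_lt {e : HilbertBasis ℤ ℂ H} {W : H →L[ℂ] H}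
    (hW : ∀ n : ℤ, W (e n) = ((2 : ℂ) ^ (-|n|)) • e (n + 1)) {M : Submodule ℂ H}
    (hM : ∀ x ∈ M, W x ∈ M) {f g : H} (hf : f ∈ M) (hg : g ∈ Mᗮ) {n m : ℤ}
    (hn : inner ℂ (e n) f ≠ 0) (hm : inner ℂ (e m) g ≠ 0) : m < n := by
  set C : ℝ := 1 + ‖f‖ + ‖g‖ with hC
  have hC1 : 1 ≤ C := by have := norm_nonneg f; have := norm_nonneg g; linarith
  set a : ℤ → ℂ := fun n => inner ℂ (e n) f * (2 : ℂ) ^ (t n) with ha
  set b : ℤ → ℂ := fun n => inner ℂ g (e (1 - n)) * (2 : ℂ) ^ (t n) with hb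
  have hna : ∀ n, ‖a n‖ ≤ C * 2 ^ (t n) := by
    intro n
    rw [ha]
    simp only
    rw [norm_mul, norm_zpow, Complex.norm_ofNat]
    gcongr
    have := norm_coeff_le e n f
    have := norm_nonneg g
    linarith
  have hnb : ∀ n, ‖b n‖ ≤ C * 2 ^ (t n) := by
    intro n
    rw [hb]
    simp only
    rw [norm_mul, norm_zpow, Complex.norm_ofNat]
    gcongr
    rw [← inner_conj_symm, RCLike.norm_conj]
    have := norm_coeff_le e (1 - n) g
    have := norm_nonneg f
    linarith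
  have hE : ∀ k : ℕ, HasSum (fun n : ℤ => a n * b (1 - (k : ℤ) - n)) 0 := by
    intro k
    have h1 := hasSum_pow hW f g k
    have h2 : inner ℂ g ((W ^ k) f) = 0 := by
      rw [Submodule.mem_orthogonal'] at hg
      exact hg _ (pow_mem hM k hf)
    rw [h2] at h1
    have h3 : (fun n : ℤ => a n * b (1 - (k : ℤ) - n)) = fun n : ℤ =>
        inner ℂ (e n) f * ((2 : ℂ) ^ (t n - t (n + k)) * inner ℂ g (e (n + k))) := by
      funext n
      rw [ha, hb]
      simp only
      have h4 : (1 : ℤ) - (1 - (k : ℤ) - n) = n + k := by ring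
      have h5 : (1 : ℤ) - (k : ℤ) - n = 1 - (n + k) := by ring
      rw [h4, h5, t_one_sub, zpow_neg, zpow_sub₀ (by norm_num)]
      ring
    rw [h3]
    exact h1
  have h1 := titchmarsh hC1 hna hnb hE (n := n) (m := 1 - m)
    (mul_ne_zero hn (zpow_ne_zero _ (by norm_num)))
    (by
      rw [hb]
      simp only
      refine mul_ne_zero ?_ (zpow_ne_zero _ (by norm_num))
      have h2 : (1 : ℤ) - (1 - m) = m := by ring
      rw [h2, ← inner_conj_symm]
      intro h3
      exact hm ((map_eq_zero _).1 h3))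
  omega

omit [CompleteSpace H] in
theorem exists_coeff_ne_zero (e : HilbertBasis ℤ ℂ H) {f : H} (hf : f ≠ 0) :
    ∃ n, inner ℂ (e n) f ≠ 0 := by
  by_contra hcon
  push Not at hcon
  apply hf
  have h1 := e.hasSum_repr f
  have h2 : (fun n => (e.repr f) n • e n) = fun _ => 0 := by
    funext n
    rw [HilbertBasis.repr_apply_apply, hcon, zero_smul]
  rw [h2] at h1
  exact h1.unique hasSum_zero

end operator

universe u

/-- Let `e n`, `n ∈ ℤ`, be an orthonormal basis of the complex Hilbert space `H`. The bounded operator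
`W` with `W (e n) = 2 ^ (-|n|) e (n + 1)` exists, and its closed invariant subspaces are exactly
`0`, `H` and the closed linear spans of `{e n | k ≤ n}`, `k ∈ ℤ`. -/
theorem result (H : Type u) [NormedAddCommGroup H] [InnerProductSpace ℂ H] [CompleteSpace H]
    (e : HilbertBasis ℤ ℂ H) :
    (∃ W : H →L[ℂ] H, ∀ n : ℤ, W (e n) = ((2 : ℂ) ^ (-|n|)) • e (n + 1)) ∧
    ∀ W : H →L[ℂ] H, (∀ n : ℤ, W (e n) = ((2 : ℂ) ^ (-|n|)) • e (n + 1)) →
      ∀ M : Submodule ℂ H, (IsClosed (M : Set H) ∧ ∀ x ∈ M, W x ∈ M) ↔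
        (M = ⊥ ∨ M = ⊤ ∨
          ∃ k : ℤ, M = (Submodule.span ℂ (e '' Set.Ici k)).topologicalClosure) := by
  refine ⟨exists_shift e, fun W hW M => ⟨?_, ?_⟩⟩
  · rintro ⟨hcl, hM⟩
    by_cases hbot : M = ⊥
    · exact Or.inl hbot
    by_cases htop : M = ⊤
    · exact Or.inr (Or.inl htop)
    refine Or.inr (Or.inr ?_)
    have : CompleteSpace M := hcl.completeSpace_coe
    obtain ⟨f₀, hf₀, hf₀0⟩ := Submodule.exists_mem_ne_zero_of_ne_bot hbot
    have hperp : Mᗮ ≠ ⊥ := fun h => htop (Submodule.orthogonal_eq_bot_iff.1 h)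
    obtain ⟨g₀, hg₀, hg₀0⟩ := Submodule.exists_mem_ne_zero_of_ne_bot hperp
    obtain ⟨m₀, hm₀⟩ := exists_coeff_ne_zero e hg₀0
    obtain ⟨n₀, hn₀⟩ := exists_coeff_ne_zero e hf₀0
    obtain ⟨k, ⟨f, hf, hfk⟩, hk⟩ := Int.exists_least_of_bdd
      (P := fun n : ℤ => ∃ f ∈ M, inner ℂ (e n) f ≠ 0)
      ⟨m₀, fun n hn => by
        obtain ⟨f, hf, hfn⟩ := hn
        exact (support_lt hW hM hf hg₀ hfn hm₀).le⟩ ⟨n₀, f₀, hf₀, hn₀⟩
    refine ⟨k, le_antisymm ?_ ?_⟩
    · intro x hx
      have h1 := e.hasSum_repr x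
      refine (Submodule.isClosed_topologicalClosure _).mem_of_tendsto h1 (.of_forall fun s => ?_)
      refine Submodule.sum_mem _ fun n _ => ?_
      by_cases hn : k ≤ n
      · exact Submodule.smul_mem _ _ (Submodule.le_topologicalClosure _
          (Submodule.subset_span ⟨n, hn, rfl⟩))
      · have h2 : inner ℂ (e n) x = 0 := by
          by_contra h3
          exact hn (hk n ⟨x, hx, h3⟩)
        rw [HilbertBasis.repr_apply_apply, h2, zero_smul]
        exact Submodule.zero_mem _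
    · refine Submodule.topologicalClosure_minimal _ ?_ hcl
      rw [Submodule.span_le]
      rintro _ ⟨n, hn, rfl⟩
      rw [SetLike.mem_coe, ← Submodule.orthogonal_orthogonal M, Submodule.mem_orthogonal]
      intro g hg
      by_contra h1
      have h2 : inner ℂ (e n) g ≠ 0 := by
        rw [← inner_conj_symm]
        intro h3
        exact h1 ((map_eq_zero _).1 h3)
      have h3 := support_lt hW hM hf hg hfk h2
      rw [Set.mem_Ici] at hn
      omega
  · rintro (rfl | rfl | ⟨k, rfl⟩)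
    · refine ⟨?_, ?_⟩
      · rw [Submodule.bot_coe]; exact isClosed_singleton
      · intro x hx
        rw [Submodule.mem_bot] at *
        rw [hx, map_zero]
    · exact ⟨by rw [Submodule.top_coe]; exact isClosed_univ, fun _ _ => Submodule.mem_top⟩
    · refine ⟨Submodule.isClosed_topologicalClosure _, ?_⟩
      have h1 : (Submodule.span ℂ (e '' Set.Ici k)).topologicalClosure ≤
          ((Submodule.span ℂ (e '' Set.Ici k)).topologicalClosure).comap W.toLinearMap := by
        refine Submodule.topologicalClosure_minimal _ ?_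
          ((Submodule.isClosed_topologicalClosure _).preimage W.continuous)
        rw [Submodule.span_le]
        rintro _ ⟨n, hn, rfl⟩
        rw [SetLike.mem_coe, Submodule.mem_comap]
        change W (e n) ∈ _
        rw [hW]
        refine Submodule.smul_mem _ _ (Submodule.le_topologicalClosure _
          (Submodule.subset_span ⟨n + 1, ?_, rfl⟩))
        rw [Set.mem_Ici] at *
        omega
      exact fun x hx => h1 hx

end Pool.Agent.Results.MP_1e8505_an.ObviousChain
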